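import Pool.Agent.Q36.RD.Pat

set_option autoImplicit false

/-!
# Multipartition functions modulo 2 on all arithmetic progressions (MP_a3366f_nt)

Let `t_1, …, t_k` be odd and `m_1, …, m_k ≥ 1` with `t_j (m_l / g) ≢ t_l (m_j / g) (mod 24)` for `j ≠ l`,
`g = gcd(m_j, m_l)`. For every `M ≥ 1` there is `C` such that every linear combination
`∑_j ∑_{i < K} c_{j,i} p_{t_j}(m_j n + i)` modulo 2 with some `c_{j,i} ≠ 0` takes both values on the
`n ≡ ρ (mod M)` in every interval `[A, C (A + K)]`, for every residue `ρ`. For `k = K = 1`, `m_1 = 1`: for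
odd `t` both parities of `p_t` occur in every progression `ρ + M n`, in every interval `[A, C (A + 1)]`.

The starting file `EtaQuotients` proves this under the hypothesis that some `p_{t_j}` takes an odd value on
some progression `m_j ρ + i mod m_j M` with `c_{j,i} ≠ 0`. Here this hypothesis is proved: for odd `t` no
arithmetic progression consists of even values of `p_t`. The proof (Galois action over `k(D)` on the
functions `D(ζ q^a)`, `D = q ∏ (1 - q^n)^24` modulo 2, commuting with the 2-adic sections; comparison of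
poles) is described in `Results/MP_72e75e_nt/NoParityCongruence`.
-/

namespace Pool.Agent.Results.MP_a3366f_nt.AllProgressions

/-- the number of `t`-multipartitions of `n`: the coefficient of `q ^ n` in `∏ 1 / (1 - q ^ i) ^ t` -/
def multipartitions (t n : ℕ) : ℕ :=
  ∑ x ∈ Finset.Nat.antidiagonalTuple t n, ∏ i, Fintype.card (Nat.Partition (x i))

theorem result (k : ℕ) (t : Fin k → ℕ) (ht : ∀ j, Odd (t j)) (m : Fin k → ℕ) (hm : ∀ j, 0 < m j)
    (hsep : ∀ j l, j ≠ l → ¬ (24 : ℤ) ∣ t j * (m l / Nat.gcd (m j) (m l) : ℕ) -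
      t l * (m j / Nat.gcd (m j) (m l) : ℕ)) (M : ℕ) (hM : 0 < M) :
    ∃ C : ℕ, ∀ (K : ℕ) (c : Fin k → ℕ → ZMod 2) (ρ : ℕ), (∃ j, ∃ i < K, c j i ≠ 0) →
      ∀ (κ : ZMod 2) (A : ℕ), ∃ n, A ≤ n ∧ n ≤ C * (A + K) ∧ n ≡ ρ [MOD M] ∧
        ∑ j, ∑ i ∈ Finset.range K, c j i * (multipartitions (t j) (m j * n + i) : ZMod 2) = κ := by
  obtain ⟨C, hC⟩ := Pool.Agent.Q36.RD.pat_P t ht m hm hsep M hM
  refine ⟨C, fun K c ρ hc κ A => ?_⟩
  obtain ⟨n, h1, h2, h3, h4⟩ := hC K c ρ hc κ A
  refine ⟨n, h1, h2, h3, ?_⟩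
  rw [← h4]
  refine Finset.sum_congr rfl fun j _ => Finset.sum_congr rfl fun i _ => ?_
  rw [Pool.Agent.TH693.QQ.coeff_P_pow]
  rfl

end Pool.Agent.Results.MP_a3366f_nt.AllProgressions
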