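import Pool.Agent.Q36.AU.Main

set_option autoImplicit false

/-!
# Multipartition functions modulo 2 against 2-automatic sequences (MP_a3366f_nt)

Let `t_1, …, t_k` be odd and distinct modulo 24, `u_1, …, u_l` 2-automatic sequences with values in `F_2`
(the 2-kernel `{n ↦ u(2^k n + r)}` is finite) and `M ≥ 1`. There is a constant `C` such that every linear
combination `∑_j ∑_{i < K} c(j, i) p_{t_j}(n + i) + ∑_z ∑_{i < K} c'(z, i) u_z(n + i)` modulo 2 in which
some `c(j, i) ≠ 0` takes both values on the `n ≡ ρ (mod M)` in every interval `[A, C (A + K)]`. For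
`k = l = K = 1`: for odd `t` and every 2-automatic sequence `u`, both `p_t(n) ≡ u(n)` and
`p_t(n) ≡ u(n) + 1` modulo 2 have solutions in every arithmetic progression, in every interval
`[A, C (A + 1)]`.

The method is described in `Results/MP_ebc808_nt/AutomaticSequences`. Let `D = q ∏ (1 - q ^ n) ^ 24` modulo 2
and `K` the algebraic closure of `F_2(D)`; the sections of `∑ p_t(n) q ^ n` are in `q ^ (t / 24) K`. A
combination of such functions which is algebraic over `F_2(q)` is shown to be a polynomial.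
-/

namespace Pool.Agent.Results.MP_a3366f_nt.AutomaticSequences

/-- the number of `t`-multipartitions of `n`: the coefficient of `q ^ n` in `∏ 1 / (1 - q ^ i) ^ t` -/
def multipartitions (t n : ℕ) : ℕ :=
  ∑ x ∈ Finset.Nat.antidiagonalTuple t n, ∏ i, Fintype.card (Nat.Partition (x i))

/-- 2-automatic: the 2-kernel is finite -/
def IsAutomatic (u : ℕ → ZMod 2) : Prop :=
  {b : ℕ → ZMod 2 | ∃ k r : ℕ, r < 2 ^ k ∧ b = fun n => u (2 ^ k * n + r)}.Finite

theorem result (k : ℕ) (t : Fin k → ℕ) (ht : ∀ j, Odd (t j))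
    (hsep : ∀ j j', j ≠ j' → ¬ t j ≡ t j' [MOD 24])
    (l : ℕ) (u : Fin l → ℕ → ZMod 2) (hu : ∀ z, IsAutomatic (u z)) (M : ℕ) (hM : 0 < M) :
    ∃ C : ℕ, ∀ (K : ℕ) (c : Fin k → ℕ → ZMod 2) (c' : Fin l → ℕ → ZMod 2) (ρ : ℕ),
      (∃ j, ∃ i < K, c j i ≠ 0) →
      ∀ (κ : ZMod 2) (A : ℕ), ∃ n, A ≤ n ∧ n ≤ C * (A + K) ∧ n ≡ ρ [MOD M] ∧
        ∑ j, ∑ i ∈ Finset.range K, c j i * (multipartitions (t j) (n + i) : ZMod 2) +
        ∑ z, ∑ i ∈ Finset.range K, c' z i * u z (n + i) = κ := by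
  obtain ⟨C, hC⟩ := Pool.Agent.Q36.AU.pat_P_aut t ht (fun _ => 1) (fun _ => Nat.one_pos)
    (fun j j' hjj h => by
      apply hsep j j' hjj
      rw [Nat.gcd_self, Nat.div_self Nat.one_pos, Nat.cast_one, mul_one, mul_one] at h
      have h1 : (24 : ℤ) ∣ (t j' : ℤ) - t j := by
        have := dvd_neg.2 h
        rwa [neg_sub] at this
      exact (Int.natCast_modEq_iff).1 ((Int.modEq_iff_dvd).2 h1)) M hM u hu
  refine ⟨C, fun K c c' ρ hc κ A => ?_⟩
  obtain ⟨n, h1, h2, h3, h4⟩ := hC K c c' ρ hc κ A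
  refine ⟨n, h1, h2, h3, ?_⟩
  rw [← h4]
  congr 1
  refine Finset.sum_congr rfl fun j _ => Finset.sum_congr rfl fun i _ => ?_
  rw [one_mul, Pool.Agent.TH693.QQ.coeff_P_pow]
  rfl

end Pool.Agent.Results.MP_a3366f_nt.AutomaticSequences
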