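import Pool.Agent.Q36.AD.Main

set_option autoImplicit false

/-!
# Multipartition functions `p_t(m n + i)` modulo 2 with distinct products `t m` (MP_a3366f_nt)

Let `t_1, …, t_k` be odd and `m_1, …, m_k ≥ 1` such that the products `t_j m_j` are pairwise distinct, and
`M ≥ 1`. There is a constant `C` such that every linear combination `∑_j ∑_{i < K} c_{j,i} p_{t_j}(m_j n + i)`
modulo 2 with some `c_{j,i} ≠ 0` takes both values on the `n ≡ ρ (mod M)` in every interval `[A, C (A + K)]`.
Two cases: one odd `t` and arbitrary distinct dilates `m_j` (so `p_t` modulo 2 is not automatic in any base);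
`m_j = 1` and arbitrary distinct odd `t_j`.

The earlier results (starting files `JointPatterns`, `EtaQuotients`, my `AllProgressions`) need
`t_j (m_l / g) ≢ t_l (m_j / g) (mod 24)`, `g = gcd(m_j, m_l)`, which makes the functions belong to different
powers of `q ^ (1 / 24)`; they say nothing e.g. on `p_1` and `p_25`, or on `p_t(n)` and `p_t(25 n + i)`.

Method (files `Q36/AD`): see `Results/MP_ebc808_nt/AllDilates`. A relation over `F_2(q)` splits into relations
between functions with the same exponent; an automorphism over `k(D)` of the field of all `D(ζ q ^ a)` transforms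
such a relation into one with exactly one pole of the largest order at `q = 0`, which belongs to the largest
product `t_j m_j`.
-/

namespace Pool.Agent.Results.MP_a3366f_nt.DistinctProducts

/-- the number of `t`-multipartitions of `n`: the coefficient of `q ^ n` in `∏ 1 / (1 - q ^ i) ^ t` -/
def multipartitions (t n : ℕ) : ℕ :=
  ∑ x ∈ Finset.Nat.antidiagonalTuple t n, ∏ i, Fintype.card (Nat.Partition (x i))

theorem result (k : ℕ) (t : Fin k → ℕ) (ht : ∀ j, Odd (t j)) (m : Fin k → ℕ) (hm : ∀ j, 0 < m j)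
    (hprod : ∀ j l, j ≠ l → t j * m j ≠ t l * m l) (M : ℕ) (hM : 0 < M) :
    ∃ C : ℕ, ∀ (K : ℕ) (c : Fin k → ℕ → ZMod 2) (ρ : ℕ), (∃ j, ∃ i < K, c j i ≠ 0) →
      ∀ (κ : ZMod 2) (A : ℕ), ∃ n, A ≤ n ∧ n ≤ C * (A + K) ∧ n ≡ ρ [MOD M] ∧
        ∑ j, ∑ i ∈ Finset.range K, c j i * (multipartitions (t j) (m j * n + i) : ZMod 2) = κ := by
  obtain ⟨C, hC⟩ := Pool.Agent.Q36.AD.products t ht m hm
    (fun j l h => by_contra fun hne => hprod j l hne h) M hM
  refine ⟨C, fun K c ρ hc κ A => ?_⟩
  obtain ⟨n, h1, h2, h3, h4⟩ := hC K c ρ hc κ A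
  refine ⟨n, h1, h2, h3, ?_⟩
  rw [← h4]
  refine Finset.sum_congr rfl fun j _ => Finset.sum_congr rfl fun i _ => ?_
  rw [Pool.Agent.TH693.QQ.coeff_P_pow]
  rfl

end Pool.Agent.Results.MP_a3366f_nt.DistinctProducts
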