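import Pool.Agent.Q36.PC.Fin

set_option autoImplicit false

/-!
# Counting the values of linear patterns of multipartition functions modulo 2 (MP_a3366f_nt)

For every odd `t`, every nonzero `c : Fin (L + 1) → F_2`, every residue class `ρ` modulo `2 ^ b` and every
`κ` in `F_2` there is `δ > 0` such that for all large `x` the congruence `∑ c_i p_t(n + i) ≡ κ (mod 2)` holds
for at least `δ √x / log x` of the integers `n ≤ x` with `n ≡ ρ (mod 2 ^ b)`. For `L = 0`: each parity of
`p_t` occurs at least `δ √x / log x` times in each class modulo `2 ^ b`, for every odd `t`; for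
`c = (1, 1)`: `p_t(n)` and `p_t(n + 1)` have the same parity, and different parities, that often.

Method. Let `f = ∏ (1 - X ^ n)`, `P = 1 / f`, `D = X f ^ 24` modulo 2. For large `e` of the right parity let
`U = f ^ (2 ^ e)` and `3 J = 2 ^ e - t` (if `3 ∣ t`: `U = f ^ (3 * 2 ^ e)` and `3 J = 3 * 2 ^ e - t`). Then
`R P ^ t U = R f ^ (3 J)` for every polynomial `R`, `U` is supported on `O(√x)` multiples of `2 ^ e` up to
`x`, and the coefficient of `f ^ (3 J)` at `n` is that of `D ^ J` at `8 n + J`. By the theory of Nicolas and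
Serre (starting file `H413R3/OddT/Alg`) the latter is 1 if `8 n + J` is a product of `a` primes `≡ 3` and `m`
primes `≡ 5 (mod 8)`, `(a, m)` the code of `J`, and 0 if `8 n + J` is exactly divisible by `a + m + 1` primes
`≡ 3 (mod 8)`. Let `8 (n - k) + J` be a fixed product of primes times a variable prime for `k = deg R`, and
exactly divisible by `a + m + 1` prescribed primes for the `k < deg R` (Chinese remainder theorem): the
coefficient of `R f ^ (3 J)` at `n` is 1, and there are `≫ x / log x` such `n ≤ x` in each class modulo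
`2 ^ b` (Siegel-Walfisz, starting file `H387R2/U3`). So `R P ^ t` has `≫ √x / log x` odd coefficients in each
class. Applied to `(X ^ (2 ^ b) + 1) R` this gives the even values.
-/

namespace Pool.Agent.Results.MP_a3366f_nt.PatternCounts

/-- the number of `t`-multipartitions of `n`: the coefficient of `q ^ n` in `∏ 1 / (1 - q ^ i) ^ t` -/
def multipartitions (t n : ℕ) : ℕ :=
  ∑ x ∈ Finset.Nat.antidiagonalTuple t n, ∏ i, Fintype.card (Nat.Partition (x i))

theorem result (t : ℕ) (ht : Odd t) (L : ℕ) (c : Fin (L + 1) → ZMod 2) (hc : c ≠ 0)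
    (b ρ : ℕ) (κ : ZMod 2) :
    ∃ δ : ℝ, 0 < δ ∧ ∃ x0 : ℕ, ∀ x : ℕ, x0 ≤ x → δ * Real.sqrt x / Real.log x ≤
      (((Finset.range (x + 1)).filter (fun n => n % 2 ^ b = ρ % 2 ^ b ∧
        ∑ i : Fin (L + 1), c i * (multipartitions t (n + i) : ZMod 2) = κ)).card : ℝ) :=
  Pool.Agent.Q36.PC.pattern_count t ht L c hc b ρ κ

end Pool.Agent.Results.MP_a3366f_nt.PatternCounts
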